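import Pool.Agent.Helper57.LH.BCL

/-!
# Project PRIMES (MP_fd8838_nt), Z2, part A: the local partial fraction of the logarithmic derivative
-/

set_option autoImplicit false

namespace Pool.Agent.Helper33.PR

open Complex Set MeasureTheory Filter Topology Metric
open Pool.Agent.Helper57.Zeta Pool.Agent.Helper57.LH

lemma logDeriv_bd {h : ℂ → ℂ} (hh : Differentiable ℂ h) {c : ℂ} {R M : ℝ} (hR : 0 < R) (hM : 0 < M)
    (hne : ∀ z ∈ ball c R, h z ≠ 0) (hb : ∀ z ∈ ball c R, ‖h z‖ ≤ ‖h c‖ * Real.exp M)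
    {w : ℂ} (hw : ‖w - c‖ ≤ R / 4) : ‖logDeriv h w‖ ≤ 8 * M / R := by
  obtain ⟨G, hGc, hG, hGb⟩ := log_bound hh hR hM hne hb
  have hsub : closedBall w (R / 4) ⊆ closedBall c (R / 2) := by
    intro u hu
    rw [mem_closedBall, dist_eq_norm] at hu ⊢
    have := norm_add_le (u - w) (w - c)
    rw [sub_add_sub_cancel] at this
    linarith
  have hsub2 : closedBall c (R / 2) ⊆ ball c R := closedBall_subset_ball (by linarith)
  have hw2 : w ∈ ball c R := by rw [mem_ball, dist_eq_norm]; linarith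
  rw [← (hG w hw2).deriv]
  have h1 : ‖deriv G w‖ ≤ 2 * M / (R / 4) := by
    apply Complex.norm_deriv_le_of_forall_mem_sphere_norm_le (by positivity)
    · apply DifferentiableOn.diffContOnCl
      intro u hu
      rw [closure_ball w (by positivity)] at hu
      exact (hG u (hsub2 (hsub hu))).differentiableAt.differentiableWithinAt
    · intro u hu
      exact hGb u (hsub (sphere_subset_closedBall hu))
  refine h1.trans (le_of_eq ?_)
  field_simp
  norm_num

theorem local_pf {f : ℂ → ℂ} (hf : Differentiable ℂ f) {c : ℂ} (hc : f c ≠ 0) {r M : ℝ} (hr : 0 < r)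
    (hM : 0 < M) (hb : ∀ z, ‖z - c‖ ≤ r → ‖f z‖ ≤ ‖f c‖ * Real.exp M) :
    ∃ S : Finset ℂ, (∀ a, a ∈ S ↔ (f a = 0 ∧ ‖a - c‖ ≤ r / 3)) ∧
      (∑ a ∈ S, (analyticOrderNatAt f a : ℝ)) ≤ 2 * M ∧
      ∀ z, ‖z - c‖ ≤ r / 12 → f z ≠ 0 →
        ‖logDeriv f z - ∑ a ∈ S, (analyticOrderNatAt f a : ℂ) / (z - a)‖ ≤ 24 * M / r := by
  classical
  set S : Finset ℂ := (zset_finite hf hc c (r / 3)).toFinset with hSdef
  have hmem : ∀ a, a ∈ S ↔ (f a = 0 ∧ ‖a - c‖ ≤ r / 3) := by
    intro a
    rw [hSdef, Set.Finite.mem_toFinset]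
    rfl
  obtain ⟨h, hh, hfac, hS, _⟩ := div_finset hf hc S
  set P : ℂ → ℂ := fun z => ∏ a ∈ S, (z - a) ^ (analyticOrderNatAt f a) with hP
  have hfac' : ∀ z, f z = P z * h z := hfac
  set n : ℕ := ∑ a ∈ S, analyticOrderNatAt f a with hn
  have hne : ∀ z, ‖z - c‖ ≤ r / 3 → h z ≠ 0 := by
    intro z hz h0
    have h1 : f z = 0 := by rw [hfac', h0, mul_zero]
    exact hS z ((hmem z).mpr ⟨h1, hz⟩) h0
  have hPc : P c ≠ 0 := by
    intro h0
    exact hc (by rw [hfac', h0, zero_mul])
  have hhc : h c ≠ 0 := hne c (by rw [sub_self, norm_zero]; positivity)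
  have hhc0 : 0 < ‖h c‖ := norm_pos_iff.mpr hhc
  -- growth with the number of the zeros
  have hgrow : ∀ z, ‖z - c‖ ≤ r → ‖h z‖ * 2 ^ n ≤ ‖h c‖ * Real.exp M := by
    intro z hz
    have hU : z ∈ closure (ball c r) := by
      rw [closure_ball c hr.ne', mem_closedBall, dist_eq_norm]
      exact hz
    have key : ∀ w ∈ frontier (ball c r), ‖h w‖ ≤ ‖h c‖ * Real.exp M / 2 ^ n := by
      intro w hw
      rw [frontier_ball _ hr.ne', mem_sphere, dist_eq_norm] at hw
      have hPw : 2 ^ n * ‖P c‖ ≤ ‖P w‖ := by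
        simp only [hP, norm_prod, norm_pow, hn]
        rw [← Finset.prod_pow_eq_pow_sum, ← Finset.prod_mul_distrib]
        apply Finset.prod_le_prod
        · intro i _; positivity
        · intro i hi
          rw [hmem] at hi
          rw [← mul_pow]
          apply pow_le_pow_left₀ (by positivity)
          have h1 : ‖c - i‖ ≤ r / 3 := by rw [norm_sub_rev]; exact hi.2
          have h3 : r - r / 3 ≤ ‖w - i‖ := by
            have h4 := norm_sub_norm_le (w - c) (i - c)
            rw [show w - c - (i - c) = w - i by ring, hw] at h4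
            linarith [hi.2]
          linarith
      have h5 : ‖f w‖ = ‖P w‖ * ‖h w‖ := by rw [hfac', norm_mul]
      have h6 : ‖f c‖ = ‖P c‖ * ‖h c‖ := by rw [hfac', norm_mul]
      have h7 := hb w hw.le
      have hPc0 : 0 < ‖P c‖ := norm_pos_iff.mpr hPc
      rw [le_div_iff₀ (by positivity)]
      have h10 : ‖P c‖ * (‖h w‖ * 2 ^ n) ≤ ‖P c‖ * (‖h c‖ * Real.exp M) := by
        calc ‖P c‖ * (‖h w‖ * 2 ^ n) = (2 ^ n * ‖P c‖) * ‖h w‖ := by ring
          _ ≤ ‖P w‖ * ‖h w‖ := by gcongr
          _ = ‖f w‖ := h5.symm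
          _ ≤ _ := h7
          _ = _ := by rw [h6]; ring
      exact le_of_mul_le_mul_left h10 hPc0
    have := Complex.norm_le_of_forall_mem_frontier_norm_le (U := ball c r) isBounded_ball
      hh.diffContOnCl key hU
    rwa [le_div_iff₀ (by positivity)] at this
  have hcount : (n : ℝ) ≤ 2 * M := by
    have h1 := hgrow c (by rw [sub_self, norm_zero]; exact hr.le)
    have h2 : (2 : ℝ) ^ n ≤ Real.exp M := le_of_mul_le_mul_left h1 hhc0
    have h3 : n * Real.log 2 ≤ M := by
      rw [← Real.log_pow]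
      calc Real.log (2 ^ n) ≤ Real.log (Real.exp M) := Real.log_le_log (by positivity) h2
        _ = M := Real.log_exp M
    have h4 := Real.log_two_gt_d9
    nlinarith [(Nat.cast_nonneg n : (0 : ℝ) ≤ n)]
  have hgrow1 : ∀ z, ‖z - c‖ ≤ r → ‖h z‖ ≤ ‖h c‖ * Real.exp M := by
    intro z hz
    have h1 : (1 : ℝ) ≤ 2 ^ n := one_le_pow₀ (by norm_num)
    calc ‖h z‖ = ‖h z‖ * 1 := (mul_one _).symm
      _ ≤ ‖h z‖ * 2 ^ n := by gcongr
      _ ≤ _ := hgrow z hz
  refine ⟨S, hmem, ?_, ?_⟩
  · rw [hn] at hcount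
    push_cast at hcount
    exact hcount
  · intro s hs hfs
    have hlog : logDeriv f s = ∑ a ∈ S, (analyticOrderNatAt f a : ℂ) / (s - a) + logDeriv h s := by
      have e1 : f = fun z => P z * h z := funext hfac'
      have hPs0 : P s ≠ 0 := by
        intro h0; exact hfs (by rw [hfac', h0, zero_mul])
      have hfac0 : ∀ a ∈ S, (s - a) ^ (analyticOrderNatAt f a) ≠ 0 := by
        intro a ha
        apply pow_ne_zero
        rw [sub_ne_zero]
        rintro rfl
        exact hfs ((hmem _).mp ha).1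
      have hPd : DifferentiableAt ℂ P s := by
        rw [hP]; fun_prop
      have e2 : logDeriv f s = logDeriv (fun z => P z * h z) s := by rw [← e1]
      rw [e2, logDeriv_mul s hPs0 (hne s (by linarith)) hPd (hh s)]
      congr 1
      have h2 := logDeriv_prod (s := S) (f := fun a z => (z - a) ^ (analyticOrderNatAt f a)) (x := s) hfac0
        (fun i _ => by fun_prop)
      rw [hP]
      rw [h2]
      refine Finset.sum_congr rfl fun a ha => ?_
      rw [logDeriv_fun_pow (f := fun z => z - a) (by fun_prop)]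
      rw [logDeriv_apply]
      simp only [deriv_sub_const, deriv_id'']
      ring
    rw [hlog, add_sub_cancel_left]
    have := logDeriv_bd hh (c := c) (R := r / 3) (by positivity) hM (fun z hz => hne z (by
      rw [mem_ball, dist_eq_norm] at hz; exact hz.le)) (fun z hz => hgrow1 z (by
      rw [mem_ball, dist_eq_norm] at hz; linarith)) (w := s) (by linarith)
    refine this.trans (le_of_eq ?_)
    field_simp
    norm_num

end Pool.Agent.Helper33.PR
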