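import Pool.Agent.Helper57.LH.ZetaBd

/-!
# Project PRIMES (MP_fd8838_nt), Z2, part B: the zeta function near the line `Re s = 1`
-/

set_option autoImplicit false

namespace Pool.Agent.Helper33.PR

open Complex Set MeasureTheory Filter Topology Metric
open Pool.Agent.Helper57.Zeta Pool.Agent.Helper57.LH

/-- `Λ(n) n ^ (-σ)` -/
noncomputable def va (σ : ℝ) (n : ℕ) : ℝ := ArithmeticFunction.vonMangoldt n / (n : ℝ) ^ σ

lemma va_nonneg (σ : ℝ) (n : ℕ) : 0 ≤ va σ n :=
  div_nonneg ArithmeticFunction.vonMangoldt_nonneg (by positivity)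

lemma va_hasSum {σ : ℝ} (hσ : 1 < σ) (u : ℝ) :
    HasSum (fun n : ℕ => va σ n * Real.cos (Real.log n * u)) (-(logDeriv riemannZeta ((σ : ℂ) + u * I)).re) := by
  set s : ℂ := (σ : ℂ) + u * I with hs
  have hre : 1 < s.re := by rw [hs]; simpa using hσ
  have h1 := ArithmeticFunction.LSeries_vonMangoldt_eq_deriv_riemannZeta_div hre
  have h2 := (ArithmeticFunction.LSeriesSummable_vonMangoldt hre).hasSum
  have h3 : ∑' n, LSeries.term (fun n => ((ArithmeticFunction.vonMangoldt n : ℝ) : ℂ)) s n = -(logDeriv riemannZeta s) := by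
    rw [logDeriv_apply, ← neg_div, ← h1]
    rfl
  rw [h3] at h2
  have h4 := Complex.hasSum_re h2
  rw [Complex.neg_re] at h4
  refine h4.congr_fun ?_
  intro n
  rcases Nat.eq_zero_or_pos n with rfl | hn
  · simp [va]
  · rw [LSeries.term_of_ne_zero hn.ne']
    have hn0 : (0:ℝ) < n := by exact_mod_cast hn
    have e1 : (n:ℂ) ^ s = (((n:ℝ) ^ σ : ℝ) : ℂ) * cexp ((Real.log n * u : ℝ) * I) := by
      rw [Complex.cpow_def_of_ne_zero (by exact_mod_cast hn.ne'), ← Complex.natCast_log, hs, mul_add, Complex.exp_add]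
      congr 1
      · rw [← Complex.ofReal_mul, ← Complex.ofReal_exp, mul_comm (Real.log n), ← Real.log_rpow hn0, Real.exp_log (by positivity)]
      · congr 1
        push_cast
        ring
    rw [e1]
    have e2 : ((ArithmeticFunction.vonMangoldt n : ℝ) : ℂ) / ((((n:ℝ) ^ σ : ℝ) : ℂ) * cexp ((Real.log n * u : ℝ) * I)) =
      ((va σ n : ℝ) : ℂ) * cexp ((-(Real.log n * u) : ℝ) * I) := by
      rw [Complex.ofReal_neg, neg_mul, Complex.exp_neg]
      unfold va
      push_cast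
      field_simp
    rw [e2, Complex.re_ofReal_mul, Complex.exp_ofReal_mul_I_re, Real.cos_neg]

lemma three_four_one {σ : ℝ} (hσ : 1 < σ) (u : ℝ) :
    0 ≤ 3 * (-(logDeriv riemannZeta (σ : ℂ)).re) + 4 * (-(logDeriv riemannZeta ((σ : ℂ) + u * I)).re) +
      (-(logDeriv riemannZeta ((σ : ℂ) + (2 * u : ℝ) * I)).re) := by
  have h0 := va_hasSum hσ 0
  have h1 := va_hasSum hσ u
  have h2 := va_hasSum hσ (2 * u)
  rw [Complex.ofReal_zero, zero_mul, add_zero] at h0
  have h3 := ((h0.mul_left 3).add (h1.mul_left 4)).add h2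
  refine h3.nonneg fun n => ?_
  have e1 : Real.cos (Real.log n * (2 * u)) = 2 * Real.cos (Real.log n * u) ^ 2 - 1 := by
    rw [← Real.cos_two_mul]
    congr 1
    ring
  rw [e1, mul_zero, Real.cos_zero]
  have h4 := va_nonneg σ n
  have e2 : 3 * (va σ n * 1) + 4 * (va σ n * Real.cos (Real.log n * u)) +
      va σ n * (2 * Real.cos (Real.log n * u) ^ 2 - 1) = 2 * va σ n * (1 + Real.cos (Real.log n * u)) ^ 2 := by
    ring
  rw [e2]
  positivity

lemma norm_logDeriv_zeta_le {s : ℂ} (hs : 1 < s.re) :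
    ‖logDeriv riemannZeta s‖ ≤ -(logDeriv riemannZeta (s.re : ℂ)).re := by
  have h0 := va_hasSum hs 0
  rw [Complex.ofReal_zero, zero_mul, add_zero] at h0
  simp only [mul_zero, Real.cos_zero, mul_one] at h0
  have h1 := ArithmeticFunction.LSeries_vonMangoldt_eq_deriv_riemannZeta_div hs
  have h2 := (ArithmeticFunction.LSeriesSummable_vonMangoldt hs).hasSum
  have h3 : ∑' n, LSeries.term (fun n => ((ArithmeticFunction.vonMangoldt n : ℝ) : ℂ)) s n = -(logDeriv riemannZeta s) := by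
    rw [logDeriv_apply, ← neg_div, ← h1]
    rfl
  rw [← norm_neg, ← h3]
  refine tsum_of_norm_bounded h0 fun n => ?_
  rw [LSeries.norm_term_eq]
  split_ifs with hn
  · exact va_nonneg _ _
  · rw [Complex.norm_real, Real.norm_of_nonneg ArithmeticFunction.vonMangoldt_nonneg]
    exact le_rfl

lemma norm_zeta_ge_near {s : ℂ} (hs : 1 < s.re) (hs2 : s.re ≤ 2) : (s.re - 1) / 45 ≤ ‖riemannZeta s‖ := by
  have hσ : 1 < ((s.re : ℝ) : ℂ).re := by simpa using hs
  -- the real point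
  have hr : ‖riemannZeta (s.re : ℂ)‖ ≤ 45 / (s.re - 1) := by
    have h1 : ((s.re : ℝ) : ℂ) ≠ 1 := by
      intro h
      have := congrArg Complex.re h
      simp at this
      linarith
    have h2 := Zt_eq (s := ((s.re : ℝ) : ℂ)) (by simp; linarith) h1
    have h3 := norm_Zt_le (s := ((s.re : ℝ) : ℂ)) (by simp; linarith)
    rw [h2, norm_mul] at h3
    have h4 : ‖((s.re : ℝ) : ℂ) - 1‖ = s.re - 1 := by
      rw [← Complex.ofReal_one, ← Complex.ofReal_sub, Complex.norm_real, Real.norm_of_nonneg (by linarith)]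
    have h5 : ‖((s.re : ℝ) : ℂ)‖ = s.re := by
      rw [Complex.norm_real, Real.norm_of_nonneg (by linarith)]
    rw [h4, h5] at h3
    rw [le_div_iff₀ (by linarith)]
    nlinarith
  -- the moebius series
  have hsum := Complex.hasSum_re (LSeriesHasSum_one hσ)
  have hμ : ‖LSeries (fun n => ((ArithmeticFunction.moebius n : ℤ) : ℂ)) s‖ ≤ (riemannZeta (s.re : ℂ)).re := by
    unfold LSeries
    refine tsum_of_norm_bounded hsum fun n => ?_
    rw [LSeries.norm_term_eq]
    split_ifs with hn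
    · subst hn
      simp
    · rw [LSeries.term_of_ne_zero hn]
      have e1 : ((1 : ℕ → ℂ) n / (n : ℂ) ^ ((s.re : ℝ) : ℂ)).re = 1 / (n : ℝ) ^ s.re := by
        rw [Pi.one_apply, ← Complex.ofReal_natCast, ← Complex.ofReal_cpow (Nat.cast_nonneg n), ← Complex.ofReal_one,
          ← Complex.ofReal_div, Complex.ofReal_re]
      rw [e1]
      gcongr
      rw [Complex.norm_intCast]
      have := ArithmeticFunction.abs_moebius_le_one (n := n)
      exact_mod_cast this
  have h1 := LSeries_one_mul_Lseries_moebius hs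
  rw [LSeries_one_eq_riemannZeta hs] at h1
  have h2 : 1 ≤ ‖riemannZeta s‖ * (45 / (s.re - 1)) := by
    have h3 := congrArg norm h1
    rw [norm_mul, norm_one] at h3
    have h5 := hμ.trans ((Complex.re_le_norm _).trans hr)
    calc (1 : ℝ) = ‖riemannZeta s‖ * ‖LSeries (fun n => ((ArithmeticFunction.moebius n : ℤ) : ℂ)) s‖ := h3.symm
      _ ≤ _ := by gcongr
  have h4 : 0 < s.re - 1 := by linarith
  rw [div_le_iff₀ (by norm_num)]
  rw [mul_div_assoc', le_div_iff₀ h4] at h2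
  linarith

lemma Zt_ne_zero_of_one_le {s : ℂ} (hs : 1 ≤ s.re) : Zt s ≠ 0 := by
  by_cases h1 : s = 1
  · subst h1
    have := Zt_eq_J (s := 1) (by simp)
    rw [this]
    simp
  · rw [Zt_eq (by linarith) h1]
    exact mul_ne_zero (sub_ne_zero.mpr h1) (riemannZeta_ne_zero_of_one_le_re hs)

lemma continuousOn_logDeriv_Zt {B : Set ℂ} (hB : ∀ z ∈ B, Zt z ≠ 0) : ContinuousOn (logDeriv Zt) B := by
  intro z hz
  have h1 : DifferentiableAt ℂ (deriv Zt) z := (differentiable_Zt.analyticAt z).deriv.differentiableAt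
  exact (h1.div (differentiable_Zt z) (hB z hz)).continuousAt.continuousWithinAt

/-- low heights -/
lemma low_heights (T3 : ℝ) : ∃ δ K : ℝ, 0 < δ ∧ δ ≤ 1 / 2 ∧ ∀ s : ℂ, |s.im| ≤ T3 → 1 - δ ≤ s.re → s.re ≤ 2 →
    Zt s ≠ 0 ∧ ‖logDeriv Zt s‖ ≤ K := by
  have hA : IsCompact (Set.Icc (1:ℝ) 2 ×ℂ Set.Icc (-T3) T3) := isCompact_Icc.reProdIm isCompact_Icc
  have hU : IsOpen {s : ℂ | Zt s ≠ 0} := isOpen_ne_fun differentiable_Zt.continuous continuous_const
  have hAU : (Set.Icc (1:ℝ) 2 ×ℂ Set.Icc (-T3) T3) ⊆ {s : ℂ | Zt s ≠ 0} := by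
    intro s hs
    rw [Complex.mem_reProdIm] at hs
    exact Zt_ne_zero_of_one_le hs.1.1
  obtain ⟨δ, hδ, hsub⟩ := hA.exists_cthickening_subset_open hU hAU
  set d := min δ (1 / 2) with hd
  have hne : ∀ s : ℂ, |s.im| ≤ T3 → 1 - d ≤ s.re → s.re ≤ 2 → Zt s ≠ 0 := by
    intro s h1 h2 h3
    by_cases h4 : 1 ≤ s.re
    · exact Zt_ne_zero_of_one_le h4
    · rw [not_le] at h4
      apply hsub
      apply mem_cthickening_of_dist_le s (⟨1, s.im⟩ : ℂ)
      · rw [Complex.mem_reProdIm]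
        exact ⟨⟨le_rfl, by norm_num⟩, abs_le.mp h1⟩
      · rw [dist_eq_norm]
        have e1 : s - (⟨1, s.im⟩ : ℂ) = ((s.re - 1 : ℝ) : ℂ) := by
          apply Complex.ext <;> simp
        rw [e1, Complex.norm_real, Real.norm_eq_abs, abs_of_neg (by linarith)]
        have := min_le_left δ (1 / 2)
        linarith
  have hB : IsCompact (Set.Icc (1 - d) 2 ×ℂ Set.Icc (-T3) T3) := isCompact_Icc.reProdIm isCompact_Icc
  obtain ⟨K, hK⟩ := hB.exists_bound_of_continuousOn (f := logDeriv Zt) (continuousOn_logDeriv_Zt (by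
    intro z hz
    rw [Complex.mem_reProdIm] at hz
    exact hne z (abs_le.mpr hz.2) hz.1.1 hz.1.2))
  refine ⟨d, K, lt_min hδ (by norm_num), min_le_right _ _, ?_⟩
  intro s h1 h2 h3
  refine ⟨hne s h1 h2 h3, hK s ?_⟩
  rw [Complex.mem_reProdIm]
  exact ⟨⟨h2, h3⟩, abs_le.mp h1⟩

lemma logDeriv_Zt {s : ℂ} (h0 : 0 < s.re) (h1 : s ≠ 1) (hz : riemannZeta s ≠ 0) :
    logDeriv Zt s = 1 / (s - 1) + logDeriv riemannZeta s := by
  have hev : Zt =ᶠ[𝓝 s] fun z => (z - 1) * riemannZeta z := by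
    filter_upwards [(isOpen_lt continuous_const Complex.continuous_re).mem_nhds h0,
      isOpen_ne.mem_nhds h1] with z hz hz1
    exact Zt_eq hz hz1
  rw [(logDeriv_congr_nhds hev).self_of_nhds]
  rw [logDeriv_mul (f := fun z : ℂ => z - 1) s (sub_ne_zero.mpr h1) hz (by fun_prop)
    (differentiableAt_riemannZeta h1)]
  congr 1
  rw [logDeriv_apply]
  simp

/-- the pole -/
lemma real_bound : ∃ K : ℝ, 0 ≤ K ∧ ∀ σ : ℝ, 1 < σ → σ ≤ 2 →
    -(logDeriv riemannZeta (σ : ℂ)).re ≤ 1 / (σ - 1) + K := by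
  obtain ⟨δ, K, hδ, -, h⟩ := low_heights 0
  refine ⟨|K|, abs_nonneg _, fun σ h1 h2 => ?_⟩
  have h3 := (h (σ : ℂ) (by simp) (by simp; linarith) (by simpa using h2)).2
  have hne : (σ : ℂ) ≠ 1 := by
    intro h
    have := congrArg Complex.re h
    simp at this
    linarith
  have h4 := logDeriv_Zt (s := (σ : ℂ)) (by simp; linarith) hne
    (riemannZeta_ne_zero_of_one_le_re (by simp; linarith))
  have h5 : (logDeriv riemannZeta (σ : ℂ)).re = (logDeriv Zt (σ : ℂ)).re - 1 / (σ - 1) := by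
    rw [h4, Complex.add_re]
    have e1 : (1 / ((σ : ℂ) - 1)).re = 1 / (σ - 1) := by
      rw [← Complex.ofReal_one, ← Complex.ofReal_sub, ← Complex.ofReal_div, Complex.ofReal_re]
    rw [e1]
    ring
  rw [h5]
  have h6 := Complex.abs_re_le_norm (logDeriv Zt (σ : ℂ))
  have h7 := neg_abs_le ((logDeriv Zt (σ : ℂ)).re)
  have h8 := le_abs_self K
  linarith

end Pool.Agent.Helper33.PR
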