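import Pool.Agent.Helper33.PR.LocPF
import Pool.Agent.Helper33.PR.ZFacts

/-!
# Project PRIMES (MP_fd8838_nt), Z2: the zero-free region of Littlewood's shape and the logarithmic derivative

`zero_free_of`: if `|ζ(s)| ≤ (log |t|)^6` for `σ ≥ 1 - (log log |t|)² / log |t|` (Z1, helper85), then for `|t| ≤ T`,
`σ ≥ 1 - c log log T / log T` the function `(s - 1) ζ(s)` has no zero and its logarithmic derivative is at most
`C log T`. Landau's method (Titchmarsh, 3.9 and 3.10).
-/

set_option autoImplicit false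

namespace Pool.Agent.Helper33.PR

open Complex Set MeasureTheory Filter Topology Metric
open Pool.Agent.Helper57.Zeta Pool.Agent.Helper57.LH

/-- `log (10 T)` -/
noncomputable def uT (T : ℝ) : ℝ := Real.log (10 * T)
/-- `log log (10 T)` -/
noncomputable def eT (T : ℝ) : ℝ := Real.log (uT T)
/-- the radius -/
noncomputable def rT (T : ℝ) : ℝ := eT T ^ 2 / uT T
/-- the abscissa -/
noncomputable def xT (T : ℝ) : ℝ := eT T / (2178 * uT T)
/-- the width -/
noncomputable def wT (T : ℝ) : ℝ := xT T / 7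

/-- everything about `T` that is used -/
structure Big (T2 K δ T : ℝ) : Prop where
  u1 : 200000 ≤ uT T
  e1 : 1 ≤ eT T
  r1 : rT T ≤ 1 / 10
  k1 : 3 * K + 5 ≤ 9 * uT T / eT T
  w1 : wT T ≤ δ
  t1 : 10 ≤ T
  t2 : T2 + 2 ≤ T

lemma big_exists (T2 K δ : ℝ) (hδ : 0 < δ) : ∃ T0 : ℝ, ∀ T : ℝ, T0 ≤ T → Big T2 K δ T := by
  have hu : Tendsto uT atTop atTop := Real.tendsto_log_atTop.comp (tendsto_id.const_mul_atTop (by norm_num))
  have he : Tendsto eT atTop atTop := Real.tendsto_log_atTop.comp hu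
  have hr0 : Tendsto (fun x : ℝ => Real.log x ^ 2 / (1 * x + 0)) atTop (𝓝 0) :=
    Real.tendsto_pow_log_div_mul_add_atTop 1 0 2 one_ne_zero
  have hr : Tendsto rT atTop (𝓝 0) := by
    have := hr0.comp hu
    refine this.congr fun T => ?_
    simp [rT, eT]
  have hx0 : Tendsto (fun x : ℝ => Real.log x ^ 1 / (1 * x + 0)) atTop (𝓝 0) :=
    Real.tendsto_pow_log_div_mul_add_atTop 1 0 1 one_ne_zero
  have hx : Tendsto (fun T => eT T / uT T) atTop (𝓝 0) := by
    have := hx0.comp hu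
    refine this.congr fun T => ?_
    simp [eT]
  have e1 : ∀ᶠ T in atTop, rT T ≤ 1 / 10 := (hr.eventually_lt_const (by norm_num)).mono fun _ h => h.le
  have e2 : ∀ᶠ T in atTop, eT T / uT T ≤ δ := (hx.eventually_lt_const hδ).mono fun _ h => h.le
  have e3 : ∀ᶠ T in atTop, eT T / uT T ≤ 9 / (3 * |K| + 5) :=
    (hx.eventually_lt_const (by positivity)).mono fun _ h => h.le
  have e4 := hu.eventually_ge_atTop 200000
  have e5 := he.eventually_ge_atTop 1
  have e6 : ∀ᶠ T : ℝ in atTop, 10 ≤ T := eventually_ge_atTop 10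
  have e7 : ∀ᶠ T : ℝ in atTop, T2 + 2 ≤ T := eventually_ge_atTop _
  obtain ⟨T0, hT0⟩ := Filter.eventually_atTop.mp (e1.and (e2.and (e3.and (e4.and (e5.and (e6.and e7))))))
  refine ⟨T0, fun T hT => ?_⟩
  obtain ⟨h1, h2, h3, h4, h5, h6, h7⟩ := hT0 T hT
  have hu0 : 0 < uT T := by linarith
  have he0 : 0 < eT T := by linarith
  refine ⟨h4, h5, h1, ?_, ?_, h6, h7⟩
  · rw [div_le_div_iff₀ hu0 (by positivity)] at h3
    rw [le_div_iff₀ he0]
    have := le_abs_self K
    nlinarith
  · have e8 : wT T = eT T / uT T / 15246 := by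
      unfold wT xT
      field_simp
      norm_num
    rw [e8]
    have : 0 ≤ eT T / uT T := by positivity
    linarith

section
variable {T2 K δ T : ℝ}

lemma Big.u0 (h : Big T2 K δ T) : 0 < uT T := by linarith [h.u1]
lemma Big.e0 (h : Big T2 K δ T) : 0 < eT T := by linarith [h.e1]
lemma Big.r0 (h : Big T2 K δ T) : 0 < rT T := div_pos (pow_pos h.e0 2) h.u0
lemma Big.x0 (h : Big T2 K δ T) : 0 < xT T := div_pos h.e0 (by linarith [h.u0])
lemma Big.w0 (h : Big T2 K δ T) : 0 < wT T := div_pos h.x0 (by norm_num)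
/-- `242 x ≤ r` -/
lemma Big.xr (h : Big T2 K δ T) : 242 * xT T ≤ rT T := by
  have h1 := h.u0
  have h2 := h.e0
  unfold xT rT
  rw [show 242 * (eT T / (2178 * uT T)) = (eT T / 9) / uT T by field_simp; norm_num]
  gcongr
  nlinarith [h.e1]
/-- `M / r = 9 u / ℓ` -/
lemma Big.Mr (h : Big T2 K δ T) : 9 * eT T / rT T = 9 * uT T / eT T := by
  have h1 := h.u0
  have h2 := h.e0
  unfold rT
  field_simp
lemma Big.xM (h : Big T2 K δ T) : 9 * uT T / eT T = (1 / 242) / xT T := by
  have h1 := h.u0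
  have h2 := h.e0
  unfold xT
  field_simp
  norm_num
end

/-- the growth at heights between `T1` and `10 T` -/
lemma growth_T {T1 : ℝ} (hG : ∀ s : ℂ, T1 ≤ |s.im| → 1 - Real.log (Real.log |s.im|) ^ 2 / Real.log |s.im| ≤ s.re →
      s.re ≤ 2 → ‖riemannZeta s‖ ≤ Real.log |s.im| ^ 6) {T : ℝ} {z : ℂ}
    (h1 : T1 ≤ |z.im|) (h2 : Real.exp (Real.exp 2) ≤ |z.im|) (h3 : |z.im| ≤ 10 * T) (h4 : 1 - rT T ≤ z.re)
    (h5 : z.re ≤ 2) : ‖riemannZeta z‖ ≤ uT T ^ 6 := by
  have hpos : 0 < |z.im| := (Real.exp_pos _).trans_le h2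
  have hv1 : Real.exp 2 ≤ Real.log |z.im| := by
    rw [Real.le_log_iff_exp_le hpos]
    exact h2
  have hv2 : Real.log |z.im| ≤ uT T := Real.log_le_log hpos h3
  have hv0 : 0 < Real.log |z.im| := (Real.exp_pos _).trans_le hv1
  have hu0 : 0 < uT T := hv0.trans_le hv2
  have hanti := Real.log_div_sqrt_antitoneOn (a := Real.log |z.im|) hv1 (b := uT T) (hv1.trans hv2) hv2
  have h6 : rT T ≤ Real.log (Real.log |z.im|) ^ 2 / Real.log |z.im| := by
    have e1 : rT T = (Real.log (uT T) / Real.sqrt (uT T)) ^ 2 := by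
      rw [div_pow, Real.sq_sqrt hu0.le]
      rfl
    have e2 : Real.log (Real.log |z.im|) ^ 2 / Real.log |z.im| =
        (Real.log (Real.log |z.im|) / Real.sqrt (Real.log |z.im|)) ^ 2 := by
      rw [div_pow, Real.sq_sqrt hv0.le]
    rw [e1, e2]
    have h7 : 0 ≤ Real.log (uT T) / Real.sqrt (uT T) := by
      apply div_nonneg
      · apply Real.log_nonneg
        have := Real.add_one_le_exp (2:ℝ)
        linarith
      · positivity
    exact pow_le_pow_left₀ h7 hanti 2
  exact (hG z h1 (by linarith) h5).trans (pow_le_pow_left₀ hv0.le hv2 6)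

/-- the circle -/
lemma circle_bd {T1 : ℝ} (hG : ∀ s : ℂ, T1 ≤ |s.im| → 1 - Real.log (Real.log |s.im|) ^ 2 / Real.log |s.im| ≤ s.re →
      s.re ≤ 2 → ‖riemannZeta s‖ ≤ Real.log |s.im| ^ 6) {T2 K δ T : ℝ} (hT2 : T2 = max T1 (Real.exp (Real.exp 2)) + 1)
    (hB : Big T2 K δ T) {g : ℝ} (hg1 : T2 ≤ |g|) (hg2 : |g| ≤ 4 * T) :
    Zt (((1 + xT T : ℝ) : ℂ) + g * I) ≠ 0 ∧ ∀ z : ℂ, ‖z - (((1 + xT T : ℝ) : ℂ) + g * I)‖ ≤ rT T →
      ‖Zt z‖ ≤ ‖Zt (((1 + xT T : ℝ) : ℂ) + g * I)‖ * Real.exp (9 * eT T) := by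
  set s0 : ℂ := ((1 + xT T : ℝ) : ℂ) + g * I with hs0
  have hx0 := hB.x0
  have hu0 := hB.u0
  have he1 := hB.e1
  have hu1 := hB.u1
  have hr1 := hB.r1
  have hr0 := hB.r0
  have ht1 := hB.t1
  have hxr := hB.xr
  have hre : s0.re = 1 + xT T := by rw [hs0]; simp
  have him : s0.im = g := by rw [hs0]; simp
  have hexp : (1 : ℝ) ≤ Real.exp (Real.exp 2) := Real.one_le_exp (Real.exp_pos _).le
  have hT2a : T1 + 1 ≤ T2 := by rw [hT2]; linarith [le_max_left T1 (Real.exp (Real.exp 2))]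
  have hT2b : Real.exp (Real.exp 2) + 1 ≤ T2 := by rw [hT2]; linarith [le_max_right T1 (Real.exp (Real.exp 2))]
  have hg0 : 1 ≤ |g| := by linarith
  refine ⟨Zt_ne_zero_of_one_le (by rw [hre]; linarith), fun z hz => ?_⟩
  have hzre : |z.re - s0.re| ≤ rT T := by
    rw [← Complex.sub_re]; exact (Complex.abs_re_le_norm _).trans hz
  have hzim : |z.im - s0.im| ≤ rT T := by
    rw [← Complex.sub_im]; exact (Complex.abs_im_le_norm _).trans hz
  rw [hre] at hzre
  rw [him] at hzim
  have hz1 := abs_le.mp hzre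
  have hz2 : |g| - rT T ≤ |z.im| := by
    have := abs_sub_abs_le_abs_sub g z.im
    rw [abs_sub_comm] at this
    linarith
  have hz3 : |z.im| ≤ |g| + rT T := by
    have := abs_sub_abs_le_abs_sub z.im g
    linarith
  have hzpos : 0 < |z.im| := by linarith
  have hzne : z ≠ 1 := by
    rintro rfl
    simp at hzpos
  have hζ := growth_T hG (T := T) (z := z) (by linarith) (by linarith) (by linarith) (by linarith) (by linarith)
  have hsne : s0 ≠ 1 := by
    intro h
    have := congrArg Complex.im h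
    rw [him] at this
    simp at this
    rw [this] at hg0
    simp at hg0
    linarith
  have hζ0 := norm_zeta_ge_near (s := s0) (by rw [hre]; linarith) (by rw [hre]; linarith)
  rw [hre] at hζ0
  rw [Zt_eq (by linarith) hzne, Zt_eq (by rw [hre]; linarith) hsne, norm_mul, norm_mul]
  have hs1 : 1 ≤ ‖s0 - 1‖ := by
    have h1 := Complex.abs_im_le_norm (s0 - 1)
    rw [Complex.sub_im, Complex.one_im, sub_zero, him] at h1
    linarith
  have hz4 : ‖z - 1‖ ≤ 2 * ‖s0 - 1‖ := by
    have h1 := norm_add_le (z - s0) (s0 - 1)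
    rw [sub_add_sub_cancel] at h1
    linarith
  have hexpM : Real.exp (9 * eT T) = uT T ^ 9 := by
    unfold eT
    rw [mul_comm, Real.exp_mul, Real.exp_log hu0]
    norm_cast
  rw [hexpM]
  have key : 2 * uT T ^ 6 ≤ ((1 + xT T - 1) / 45) * uT T ^ 9 := by
    have e1 : (1 + xT T - 1) / 45 * uT T ^ 9 = (eT T * uT T ^ 2 / 98010) * uT T ^ 6 := by
      unfold xT
      field_simp
      ring
    rw [e1]
    gcongr
    rw [le_div_iff₀ (by norm_num)]
    nlinarith [mul_le_mul he1 (pow_le_pow_left₀ (by norm_num) hu1 2) (by norm_num) (by linarith)]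
  calc ‖z - 1‖ * ‖riemannZeta z‖ ≤ 2 * ‖s0 - 1‖ * uT T ^ 6 := by gcongr
    _ = ‖s0 - 1‖ * (2 * uT T ^ 6) := by ring
    _ ≤ ‖s0 - 1‖ * (((1 + xT T - 1) / 45) * uT T ^ 9) := by gcongr
    _ ≤ ‖s0 - 1‖ * (‖riemannZeta s0‖ * uT T ^ 9) := by gcongr
    _ = ‖s0 - 1‖ * ‖riemannZeta s0‖ * uT T ^ 9 := by ring

lemma term_re_nonneg {s a : ℂ} (n : ℕ) (h : a.re ≤ s.re) : 0 ≤ ((n : ℂ) / (s - a)).re := by
  rw [Complex.div_re]
  simp only [Complex.natCast_re, Complex.natCast_im, zero_mul, zero_div, add_zero]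
  apply div_nonneg
  · exact mul_nonneg (Nat.cast_nonneg _) (by rw [Complex.sub_re]; linarith)
  · exact Complex.normSq_nonneg _

lemma zero_free_high {T1 : ℝ} (hG : ∀ s : ℂ, T1 ≤ |s.im| → 1 - Real.log (Real.log |s.im|) ^ 2 / Real.log |s.im| ≤ s.re →
      s.re ≤ 2 → ‖riemannZeta s‖ ≤ Real.log |s.im| ^ 6) {T2 K δ T : ℝ} (hT2 : T2 = max T1 (Real.exp (Real.exp 2)) + 1)
    (hB : Big T2 K δ T) (hK : ∀ σ : ℝ, 1 < σ → σ ≤ 2 → -(logDeriv riemannZeta (σ : ℂ)).re ≤ 1 / (σ - 1) + K)
    {ρ : ℂ} (hρ : Zt ρ = 0) (h1 : T2 ≤ |ρ.im|) (h2 : |ρ.im| ≤ 2 * T) : ρ.re ≤ 1 - wT T := by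
  by_contra hcon
  rw [not_le] at hcon
  have hβ : ρ.re < 1 := by
    by_contra h
    exact Zt_ne_zero_of_one_le (not_lt.mp h) hρ
  have hx0 := hB.x0
  have hr0 := hB.r0
  have he0 := hB.e0
  have hxr := hB.xr
  have hr1 := hB.r1
  have hk1 := hB.k1
  have hexp : (1 : ℝ) ≤ Real.exp (Real.exp 2) := Real.one_le_exp (Real.exp_pos _).le
  have hT2b : Real.exp (Real.exp 2) + 1 ≤ T2 := by rw [hT2]; linarith [le_max_right T1 (Real.exp (Real.exp 2))]
  have hg1 : 1 ≤ |ρ.im| := by linarith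
  have habs2 : |2 * ρ.im| = 2 * |ρ.im| := by rw [abs_mul]; norm_num
  obtain ⟨hn0, hc0⟩ := circle_bd hG hT2 hB (g := ρ.im) h1 (by linarith)
  obtain ⟨hn1, hc1⟩ := circle_bd hG hT2 hB (g := 2 * ρ.im) (by rw [habs2]; linarith) (by rw [habs2]; linarith)
  set s0 : ℂ := ((1 + xT T : ℝ) : ℂ) + ρ.im * I with hs0
  set s1 : ℂ := ((1 + xT T : ℝ) : ℂ) + ((2 * ρ.im : ℝ) : ℂ) * I with hs1
  have hre0 : s0.re = 1 + xT T := by rw [hs0]; simp
  have him0 : s0.im = ρ.im := by rw [hs0]; simp
  have hre1 : s1.re = 1 + xT T := by rw [hs1]; simp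
  have him1 : s1.im = 2 * ρ.im := by rw [hs1]; simp
  obtain ⟨S0, hS0, -, hpf0⟩ := local_pf differentiable_Zt hn0 hr0 (M := 9 * eT T) (by linarith) hc0
  obtain ⟨S1, hS1, -, hpf1⟩ := local_pf differentiable_Zt hn1 hr0 (M := 9 * eT T) (by linarith) hc1
  have hp0 := hpf0 s0 (by rw [sub_self, norm_zero]; positivity) hn0
  have hp1 := hpf1 s1 (by rw [sub_self, norm_zero]; positivity) hn1
  have hlt : ∀ a, Zt a = 0 → a.re < 1 := by
    intro a ha
    by_contra h
    exact Zt_ne_zero_of_one_le (not_lt.mp h) ha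
  have hwx : wT T = xT T / 7 := rfl
  -- the zero is in the disc
  have hsub : s0 - ρ = ((1 + xT T - ρ.re : ℝ) : ℂ) := by
    apply Complex.ext
    · rw [Complex.sub_re, hre0, Complex.ofReal_re]
    · rw [Complex.sub_im, him0, Complex.ofReal_im, sub_self]
  have hdpos : 0 < 1 + xT T - ρ.re := by linarith
  have hmem : ρ ∈ S0 := by
    rw [hS0]
    refine ⟨hρ, ?_⟩
    rw [norm_sub_rev, hsub, Complex.norm_real, Real.norm_of_nonneg hdpos.le]
    linarith
  -- real parts
  have hR0 : 1 / (1 + xT T - ρ.re) - 24 * (9 * eT T) / rT T ≤ (logDeriv Zt s0).re := by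
    have h3 : 1 / (1 + xT T - ρ.re) ≤ (∑ a ∈ S0, (analyticOrderNatAt Zt a : ℂ) / (s0 - a)).re := by
      rw [Complex.re_sum]
      refine le_trans ?_ (Finset.single_le_sum (fun a ha => term_re_nonneg _ (by
        rw [hre0]; have := hlt a ((hS0 a).mp ha).1; linarith)) hmem)
      rw [hsub, ← Complex.ofReal_natCast, ← Complex.ofReal_div, Complex.ofReal_re]
      gcongr
      have := (order_pos_iff differentiable_Zt hn0 ρ).mpr hρ
      exact_mod_cast Nat.one_le_iff_ne_zero.mpr this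
    have h4 := (Complex.abs_re_le_norm _).trans hp0
    rw [Complex.sub_re] at h4
    linarith [(abs_le.mp h4).1]
  have hR1 : -(24 * (9 * eT T) / rT T) ≤ (logDeriv Zt s1).re := by
    have h3 : 0 ≤ (∑ a ∈ S1, (analyticOrderNatAt Zt a : ℂ) / (s1 - a)).re := by
      rw [Complex.re_sum]
      exact Finset.sum_nonneg fun a ha => term_re_nonneg _ (by
        rw [hre1]; have := hlt a ((hS1 a).mp ha).1; linarith)
    have h4 := (Complex.abs_re_le_norm _).trans hp1
    rw [Complex.sub_re] at h4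
    linarith [(abs_le.mp h4).1]
  -- from Zt to zeta
  have hpole : ∀ s : ℂ, s.re = 1 + xT T → 1 ≤ |s.im| →
      -(logDeriv riemannZeta s).re ≤ -(logDeriv Zt s).re + 1 := by
    intro s hs hs'
    have hne : s ≠ 1 := by
      rintro rfl
      simp at hs'
      linarith
    have h3 := logDeriv_Zt (s := s) (by rw [hs]; linarith) hne (riemannZeta_ne_zero_of_one_le_re (by rw [hs]; linarith))
    have h4 : (1 / (s - 1)).re ≤ 1 := by
      refine (Complex.re_le_norm _).trans ?_
      rw [norm_div, norm_one]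
      have h5 := Complex.abs_im_le_norm (s - 1)
      rw [Complex.sub_im, Complex.one_im, sub_zero] at h5
      rw [div_le_one (by linarith)]
      linarith
    have h6 := congrArg Complex.re h3
    rw [Complex.add_re] at h6
    linarith
  have hz0 := hpole s0 hre0 (by rw [him0]; exact hg1)
  have hz1 := hpole s1 hre1 (by rw [him1, habs2]; linarith)
  have h341 := three_four_one (σ := 1 + xT T) (by linarith) ρ.im
  have hKx := hK (1 + xT T) (by linarith) (by linarith)
  rw [add_sub_cancel_left] at hKx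
  have hMr := hB.Mr
  have hxM := hB.xM
  have e24 : 24 * (9 * eT T) / rT T = 24 * ((1 / 242) / xT T) := by
    rw [mul_div_assoc, hMr, hxM]
  rw [e24] at hR0 hR1
  rw [hxM] at hk1
  -- the final inequality
  have h7 : 3.5 / xT T < 4 * (1 / (1 + xT T - ρ.re)) := by
    rw [mul_one_div, div_lt_div_iff₀ hx0 hdpos]
    have : 1 + xT T - ρ.re < 8 / 7 * xT T := by linarith
    linarith
  have e1 : (3.5 : ℝ) / xT T = 3 * (1 / xT T) + 121 * ((1 / 242) / xT T) := by
    field_simp
    norm_num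
  linarith

theorem zero_free_of (hG : ∃ T1 : ℝ, ∀ s : ℂ, T1 ≤ |s.im| →
      1 - Real.log (Real.log |s.im|) ^ 2 / Real.log |s.im| ≤ s.re → s.re ≤ 2 →
      ‖riemannZeta s‖ ≤ Real.log |s.im| ^ 6) :
    ∃ c C T0 : ℝ, 0 < c ∧ 0 < C ∧ ∀ T : ℝ, T0 ≤ T → ∀ s : ℂ, |s.im| ≤ T →
      1 - c * Real.log (Real.log T) / Real.log T ≤ s.re → s.re ≤ 2 →
      Zt s ≠ 0 ∧ ‖logDeriv Zt s‖ ≤ C * Real.log T := by
  obtain ⟨T1, hG⟩ := hG
  obtain ⟨K, hK0, hK⟩ := real_bound
  set T2 : ℝ := max T1 (Real.exp (Real.exp 2)) + 1 with hT2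
  obtain ⟨δ, K2, hδ0, hδ1, hlow⟩ := low_heights (T2 + 1)
  obtain ⟨T0, hT0⟩ := big_exists T2 K δ hδ0
  have hexp : (1 : ℝ) ≤ Real.exp (Real.exp 2) := Real.one_le_exp (Real.exp_pos _).le
  have hT2b : Real.exp (Real.exp 2) + 1 ≤ T2 := by rw [hT2]; linarith [le_max_right T1 (Real.exp (Real.exp 2))]
  refine ⟨1 / 100000, 2000000 + |K2| + K, max T0 10, by norm_num, by positivity, ?_⟩
  intro T hT s hs1 hs2 hs3
  have hB : Big T2 K δ T := hT0 T (le_trans (le_max_left _ _) hT)
  have hT10 : 10 ≤ T := hB.t1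
  have hx0 := hB.x0
  have hw0 := hB.w0
  have hr0 := hB.r0
  have he0 := hB.e0
  have hu0 := hB.u0
  have hxr := hB.xr
  have hr1 := hB.r1
  have hwx : wT T = xT T / 7 := rfl
  -- comparison of the logarithms
  have hlogT : 0 < Real.log T := Real.log_pos (by linarith)
  have hu2 : uT T ≤ 2 * Real.log T := by
    unfold uT
    rw [Real.log_mul (by norm_num) (by linarith)]
    have := Real.log_le_log (by norm_num) hT10
    linarith
  have hu3 : Real.log T ≤ uT T := Real.log_le_log (by linarith) (by linarith)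
  have hL1 : 1 ≤ Real.log T := by linarith [hB.u1]
  have hell : Real.log (Real.log T) ≤ eT T := Real.log_le_log hlogT hu3
  have hell0 : 0 ≤ Real.log (Real.log T) := Real.log_nonneg hL1
  have hwidth : 1 / 100000 * Real.log (Real.log T) / Real.log T ≤ wT T / 2 := by
    have e1 : wT T / 2 = eT T / (30492 * uT T) := by
      unfold wT xT
      field_simp
      norm_num
    rw [e1, div_le_div_iff₀ hlogT (by positivity)]
    nlinarith [mul_le_mul hell hu2 hu0.le he0.le]
  have hs4 : 1 - wT T / 2 ≤ s.re := by linarith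
  -- the zeros
  have hzeros : ∀ a : ℂ, Zt a = 0 → |a.im| ≤ 2 * T → a.re ≤ 1 - wT T := by
    intro a ha h1
    rcases le_total T2 |a.im| with h | h
    · exact zero_free_high hG hT2 hB hK ha h h1
    · by_contra hcon
      rw [not_le] at hcon
      have h3 : a.re < 1 := by
        by_contra h
        exact Zt_ne_zero_of_one_le (not_lt.mp h) ha
      exact (hlow a (by linarith) (by linarith [hB.w1]) (by linarith)).1 ha
  have hne : Zt s ≠ 0 := by
    intro h
    have := hzeros s h (by linarith)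
    linarith
  refine ⟨hne, ?_⟩
  have hK2 := le_abs_self K2
  have hK20 := abs_nonneg K2
  rcases le_total |s.im| (T2 + 1) with h | h
  · have h3 := (hlow s h (by linarith [hB.w1]) hs3).2
    nlinarith
  have hu4 : uT T / eT T ≤ uT T := by
    rw [div_le_iff₀ he0]
    nlinarith [hB.e1]
  rcases le_total s.re (1 + xT T) with h' | h'
  · -- near the line
    obtain ⟨hn0, hc0⟩ := circle_bd hG hT2 hB (g := s.im) (by linarith) (by linarith)
    obtain ⟨S, hS, hcount, hpf⟩ := local_pf differentiable_Zt hn0 hr0 (M := 9 * eT T) (by linarith) hc0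
    set s0 : ℂ := ((1 + xT T : ℝ) : ℂ) + s.im * I with hs0
    have hre0 : s0.re = 1 + xT T := by rw [hs0]; simp
    have him0 : s0.im = s.im := by rw [hs0]; simp
    have hd : ‖s - s0‖ ≤ rT T / 12 := by
      have e1 : s - s0 = ((s.re - (1 + xT T) : ℝ) : ℂ) := by
        apply Complex.ext
        · rw [Complex.sub_re, hre0, Complex.ofReal_re]
        · rw [Complex.sub_im, him0, Complex.ofReal_im, sub_self]
      rw [e1, Complex.norm_real, Real.norm_eq_abs, abs_of_nonpos (by linarith)]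
      linarith
    have h5 := hpf s hd hne
    have h6 : ‖∑ a ∈ S, (analyticOrderNatAt Zt a : ℂ) / (s - a)‖ ≤ 2 * (9 * eT T) * (2 / wT T) := by
      calc ‖∑ a ∈ S, (analyticOrderNatAt Zt a : ℂ) / (s - a)‖
          ≤ ∑ a ∈ S, (analyticOrderNatAt Zt a : ℝ) * (2 / wT T) := by
            refine (norm_sum_le _ _).trans (Finset.sum_le_sum fun a ha => ?_)
            rw [norm_div, Complex.norm_natCast, div_eq_mul_inv]
            gcongr
            rw [hS] at ha
            have h7 : |a.im| ≤ 2 * T := by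
              have h8 := (Complex.abs_im_le_norm _).trans ha.2
              rw [Complex.sub_im, him0] at h8
              have h9 := abs_sub_abs_le_abs_sub a.im s.im
              linarith
            have h8 := hzeros a ha.1 h7
            have h9 : wT T / 2 ≤ ‖s - a‖ := by
              have h10 := Complex.re_le_norm (s - a)
              rw [Complex.sub_re] at h10
              linarith
            rw [show 2 / wT T = (wT T / 2)⁻¹ by rw [inv_div]]
            exact inv_anti₀ (by linarith) h9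
        _ = (∑ a ∈ S, (analyticOrderNatAt Zt a : ℝ)) * (2 / wT T) := by rw [Finset.sum_mul]
        _ ≤ _ := by gcongr
    have h7 : ‖logDeriv Zt s‖ ≤ 24 * (9 * eT T) / rT T + 2 * (9 * eT T) * (2 / wT T) := by
      have h8 := norm_add_le (logDeriv Zt s - ∑ a ∈ S, (analyticOrderNatAt Zt a : ℂ) / (s - a))
        (∑ a ∈ S, (analyticOrderNatAt Zt a : ℂ) / (s - a))
      rw [sub_add_cancel] at h8
      linarith
    have e1 : 24 * (9 * eT T) / rT T = 216 * (uT T / eT T) := by
      rw [mul_div_assoc, hB.Mr]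
      ring
    have e2 : 2 * (9 * eT T) * (2 / wT T) = 548856 * uT T := by
      unfold wT xT
      field_simp
      norm_num
    rw [e1, e2] at h7
    nlinarith
  · -- to the right
    have h1s : 1 < s.re := by linarith
    have hsne : s ≠ 1 := by
      rintro rfl
      simp at h1s
    have h3 := logDeriv_Zt (s := s) (by linarith) hsne (riemannZeta_ne_zero_of_one_le_re h1s.le)
    have h4 : ‖(1 : ℂ) / (s - 1)‖ ≤ 1 := by
      rw [norm_div, norm_one]
      have h5 := Complex.abs_im_le_norm (s - 1)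
      rw [Complex.sub_im, Complex.one_im, sub_zero] at h5
      rw [div_le_one (by linarith)]
      linarith
    have h5 := (norm_logDeriv_zeta_le h1s).trans (hK s.re h1s hs3)
    have h6 : 1 / (s.re - 1) ≤ 2178 * (uT T / eT T) := by
      have e1 : 2178 * (uT T / eT T) = 1 / xT T := by
        unfold xT
        field_simp
      rw [e1]
      apply one_div_le_one_div_of_le hx0
      linarith
    rw [h3]
    have h7 := norm_add_le (1 / (s - 1)) (logDeriv riemannZeta s)
    nlinarith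

end Pool.Agent.Helper33.PR
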